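import Pool.Agent.Helper29.SR.Props
import Pool.Agent.Helper10.RC.Homs
import Pool.Agent.Helper45.RC.DomM
import Pool.Agent.Helper6.RC.DomMat

/-!
# MP_b55b7c_an: tracial comparison of matrices (packet SR-TTrM)
-/

open scoped ENNReal NNReal InnerProductSpace ComplexOrder
open Filter Topology

attribute [-instance] CStarMatrix.instAlgebra CStarMatrix.instModule CStarMatrix.instSMul
  CStarMatrix.instMulAction CStarMatrix.instDistribMulAction

set_option linter.unusedSectionVars false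

noncomputable section
namespace RC
universe u

section
variable {A : Type u} [CStarAlgebra A] [PartialOrder A] [StarOrderedRing A]
variable {ι κ : Type} [Fintype ι] [DecidableEq ι] [Fintype κ] [DecidableEq κ]

theorem trm_inl_inl : (inlM A ι κ).conjTranspose * inlM A ι κ = 1 := by
  show (Matrix.fromRows (1 : Matrix ι ι A) (0 : Matrix κ ι A)).conjTranspose *
    Matrix.fromRows (1 : Matrix ι ι A) (0 : Matrix κ ι A) = (1 : Matrix ι ι A)
  rw [Matrix.conjTranspose_fromRows_eq_fromCols_conjTranspose, Matrix.fromCols_mul_fromRows]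
  simp

theorem trm_corner (H : CStarMatrix (ι ⊕ κ) (ι ⊕ κ) A) (i : ι) :
    ((inlM A ι κ).conjTranspose * H * inlM A ι κ) i i = H (Sum.inl i) (Sum.inl i) := by
  rw [CStarMatrix.mul_apply, Fintype.sum_sum_type]
  have h1 : ∀ x : ι, (inlM A ι κ) (Sum.inl x) i = if x = i then 1 else 0 := fun x => by
    show (1 : Matrix ι ι A) x i = _
    rw [Matrix.one_apply]
  have h2 : ∀ x : κ, (inlM A ι κ) (Sum.inr x) i = 0 := fun x => rfl
  simp only [h1, h2, mul_zero, Finset.sum_const_zero, add_zero, mul_ite, mul_one,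
    Finset.sum_ite_eq', Finset.mem_univ, if_true]
  rw [CStarMatrix.mul_apply, Fintype.sum_sum_type]
  have h3 : ∀ x : ι, (inlM A ι κ).conjTranspose i (Sum.inl x) = if x = i then 1 else 0 := fun x => by
    show star ((inlM A ι κ) (Sum.inl x) i) = _
    rw [h1]
    split_ifs <;> simp
  have h4 : ∀ x : κ, (inlM A ι κ).conjTranspose i (Sum.inr x) = 0 := fun x => by
    show star ((inlM A ι κ) (Sum.inr x) i) = _
    rw [h2, star_zero]
  simp only [h3, h4, zero_mul, Finset.sum_const_zero, add_zero, ite_mul, one_mul,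
    Finset.sum_ite_eq', Finset.mem_univ, if_true]

end

theorem tTrMP (hM : QMonoP.{u}) (hB : QBasicP.{u}) (hD : QDsumP.{u}) (h1 : TTrP.{u})
    (h2 : MatSRP.{u}) (h3 : MatTP.{u}) : TTrMP.{u} := by
  intro M _ _ _ hSR ι κ _ _ _ _ a b ha hb hab δ ε hδ hε
  rcases isEmpty_or_nonempty (ι ⊕ κ) with he | hne
  · have hι : IsEmpty ι := ⟨fun i => he.false (Sum.inl i)⟩
    have hsub : ∀ x y : CStarMatrix ι ι M, x = y := fun x y => by
      ext i; exact (hι.false i).elim
    refine ⟨0, 0, le_rfl, le_of_eq (hsub _ _), fun φ σ hσ => ?_⟩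
    rw [QTrace.zero]
    exact hε.le
  · have hN : 0 < (Fintype.card (ι ⊕ κ) : ℝ) := by exact_mod_cast Fintype.card_pos
    obtain ⟨m1, m2⟩ := h3 M (ι ⊕ κ)
    have hz1 : ∀ σ : QTrace M, σ.dim (0 : CStarMatrix κ κ M) = 0 := fun σ =>
      le_antisymm (domM_dim_zero hM hB σ κ) (hB M σ κ 0 le_rfl).2.1
    have hz2 : ∀ σ : QTrace M, σ.dim (0 : CStarMatrix ι ι M) = 0 := fun σ =>
      le_antisymm (domM_dim_zero hM hB σ ι) (hB M σ ι 0 le_rfl).2.1
    have hda : 0 ≤ dsum a (0 : CStarMatrix κ κ M) := dsum_nonneg ha le_rfl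
    have hdb : 0 ≤ dsum (0 : CStarMatrix ι ι M) b := dsum_nonneg le_rfl hb
    obtain ⟨Y, H, hH, hle, hsm⟩ := h1 (CStarMatrix (ι ⊕ κ) (ι ⊕ κ) M) (h2 M hSR (ι ⊕ κ))
      (dsum a (0 : CStarMatrix κ κ M)) (dsum (0 : CStarMatrix ι ι M) b) hda hdb (by
        intro φ' σ' hq
        obtain ⟨ψ, σ, hψ, -, hd⟩ := m1 φ' σ' hq
        rw [hd _ hda, hd _ hdb, (hD M σ ι κ a 0 ha le_rfl).2, (hD M σ ι κ 0 b le_rfl hb).2,
          hz1, hz2, add_zero, zero_add]
        exact (div_lt_div_iff_of_pos_right hN).2 (hab ψ σ hψ)) δ (ε / Fintype.card (ι ⊕ κ)) hδ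
      (div_pos hε hN)
    set J : CStarMatrix (ι ⊕ κ) ι M := inlM M ι κ with hJ
    set K : CStarMatrix (ι ⊕ κ) κ M := inrM M ι κ with hK
    refine ⟨K.conjTranspose * Y * J, J.conjTranspose * H * J, cm_conj_nonneg' J hH, ?_, ?_⟩
    · have e1 := cm_conj_le' J hle
      have e2 : J.conjTranspose * dsum a (0 : CStarMatrix κ κ M) * J = a := by
        rw [← inlM_conj a, ← hJ]
        calc J.conjTranspose * (J * a * J.conjTranspose) * J
            = (J.conjTranspose * J) * a * (J.conjTranspose * J) := by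
              simp only [cm_assoc]
          _ = a := by rw [hJ, trm_inl_inl, cm_one_mul, cm_mul_one]
      have e3 : J.conjTranspose * (star Y * dsum (0 : CStarMatrix ι ι M) b * Y) * J =
          (K.conjTranspose * Y * J).conjTranspose * b * (K.conjTranspose * Y * J) := by
        rw [← inrM_conj b, ← hK, ← cm_star_eq, cm_conj_mul, cm_conj_mul, cm_conj_conj]
        simp only [cm_assoc]
      have e4 : J.conjTranspose * (δ • (1 : CStarMatrix (ι ⊕ κ) (ι ⊕ κ) M)) * J =
          δ • (1 : CStarMatrix ι ι M) := by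
        rw [cm_mul_rsmul, cm_rsmul_mul, cm_mul_one, hJ, trm_inl_inl]
      have e5 : ∀ X Z : CStarMatrix (ι ⊕ κ) (ι ⊕ κ) M,
          J.conjTranspose * (X + Z) * J = J.conjTranspose * X * J + J.conjTranspose * Z * J := by
        intro X Z
        have g1 : J.conjTranspose * (X + Z) = J.conjTranspose * X + J.conjTranspose * Z :=
          Matrix.mul_add _ _ _
        rw [g1]
        exact Matrix.add_mul _ _ _
      rw [e2, e5, e5, e3, e4] at e1
      exact e1
    · intro φ σ hq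
      obtain ⟨ψ', σ', hq', hv, -⟩ := m2 φ σ hq
      have e1 := hsm ψ'
      rw [hv H] at e1
      have e2 : ((Fintype.card (ι ⊕ κ) : ℂ)⁻¹ * ∑ i, φ.φ (H i i)).re =
          (Fintype.card (ι ⊕ κ) : ℝ)⁻¹ * ∑ i, (φ.φ (H i i)).re := by
        rw [← Complex.ofReal_natCast, ← Complex.ofReal_inv, Complex.re_ofReal_mul,
          Complex.re_sum]
      rw [e2, inv_mul_le_iff₀ hN, mul_div_cancel₀ _ hN.ne'] at e1
      rw [hq ι]
      have e3 : ∀ i : ι ⊕ κ, 0 ≤ (φ.φ (H i i)).re := fun i =>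
        (Complex.le_def.1 (φ.nonneg _ (Pool.Agent.Helper6.RC.diag_nonneg hH i))).1
      have e4 : ∀ i : ι, (φ.φ ((J.conjTranspose * H * J) i i)).re =
          (φ.φ (H (Sum.inl i) (Sum.inl i))).re := fun i => by
        rw [hJ, trm_corner]
      rw [Finset.sum_congr rfl fun i _ => e4 i]
      rw [Fintype.sum_sum_type] at e1
      have e5 : 0 ≤ ∑ i : κ, (φ.φ (H (Sum.inr i) (Sum.inr i))).re :=
        Finset.sum_nonneg fun i _ => e3 _
      linarith

end RC
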